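import Mathlib
import Pool.Agent.MP_7d36bd_gt.H41.Space

/-!
The Hausdorff form of the example: the topology on countably branching well-founded trees is
refined by countably many clopen sets that separate the points, and discreteness of the set of
children is taken in the refined topology.
-/

open Set

namespace Pool.Agent.MP_7d36bd_gt.H73

open H41 (Tr Disc reduce node_ne)

/-- the paths of a tree -/
def has : Tr → List ℕ → Prop
  | .leaf, l => l = []
  | .node _, [] => True
  | .node f, n :: l => has (f n) l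

lemma has_nil (x : Tr) : has x [] := by cases x <;> simp [has]

lemma has_inj (x : Tr) : ∀ y, (∀ l, has x l ↔ has y l) → x = y := by
  induction x with
  | leaf =>
    intro y h
    cases y with
    | leaf => rfl
    | node g => simpa [has, has_nil] using h [0]
  | node f ih =>
    intro y h
    cases y with
    | leaf => simpa [has, has_nil] using h [0]
    | node g => exact congrArg _ (funext fun n => ih n _ fun l => h (n :: l))

/-- the labels -/
abbrev Lb : Type := Tr ⊕ Tr ⊕ List ℕ × Bool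

/-- the labels that do not depend on the recursion -/
def R (x : Tr) : Set (Tr ⊕ List ℕ × Bool) :=
  insert (Sum.inl x) (Sum.inr '' {q | has x q.1 ↔ q.2 = true})

/-- the set of children if it is discrete, else the empty set -/
def S : Tr → Set Tr
  | .leaf => ∅
  | .node f => {x | x ∈ range f ∧ ∀ n, ∃ H : Finset Lb,
      Disjoint (H : Set Lb) (Sum.inl '' S (f n) ∪ Sum.inr '' R (f n)) ∧
      ∀ m, Disjoint (H : Set Lb) (Sum.inl '' S (f m) ∪ Sum.inr '' R (f m)) → f m = f n}

/-- the countable set attached to a point -/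
def T (x : Tr) : Set Lb := Sum.inl '' S x ∪ Sum.inr '' R x

lemma S_countable (x : Tr) : (S x).Countable := by
  cases x with
  | leaf => exact countable_empty
  | node f => exact (countable_range f).mono fun x hx => hx.1

lemma T_countable (x : Tr) : (T x).Countable :=
  ((S_countable x).image _).union ((((to_countable _).image _).insert _).image _)

lemma inl_mem_T {x y : Tr} : Sum.inl x ∈ T y ↔ x ∈ S y := by simp [T]

lemma pt_mem_T {x y : Tr} : Sum.inr (Sum.inl x) ∈ T y ↔ x = y := by simp [T, R]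

lemma lab_mem_T {q : List ℕ × Bool} {y : Tr} :
    Sum.inr (Sum.inr q) ∈ T y ↔ (has y q.1 ↔ q.2 = true) := by
  simp only [T, R, mem_union, mem_image, reduceCtorEq, and_false, exists_false, false_or,
    Sum.inr.injEq, exists_eq_right, mem_insert_iff, mem_ofPred_eq]

lemma not_mem_S (x : Tr) : x ∉ S x := by
  cases x with
  | leaf => exact notMem_empty _
  | node f => exact fun h => node_ne _ f rfl h.1

lemma disc_S (x : Tr) : Disc T (S x) := by
  cases x with
  | leaf => intro d hd; exact absurd hd (notMem_empty _)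
  | node f =>
    rintro d ⟨⟨n, rfl⟩, h⟩
    obtain ⟨H, h1, h2⟩ := h n
    refine ⟨H, h1, ?_⟩
    rintro e ⟨⟨m, rfl⟩, -⟩ he
    exact h2 m he

lemma S_node {f : ℕ → Tr} (h : Disc T (range f)) : range f ⊆ S (.node f) := by
  intro x hx
  refine ⟨hx, fun n => ?_⟩
  obtain ⟨H, h1, h2⟩ := h (f n) ⟨n, rfl⟩
  exact ⟨H, h1, fun m hm => h2 (f m) ⟨m, rfl⟩ hm⟩

/-- basic open sets -/
def W (H : Finset Lb) : Set Tr := {x | Disjoint (H : Set Lb) (T x)}

open Classical in
lemma W_union (H H' : Finset Lb) : W (H ∪ H') = W H ∩ W H' := by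
  ext x; simp [W]

lemma mem_W_single {a : Lb} {x : Tr} : x ∈ W {a} ↔ a ∉ T x := by
  simp only [W, Finset.coe_singleton, mem_ofPred_eq, disjoint_singleton_left]

/-- the topology -/
@[reducible] def top : TopologicalSpace Tr where
  IsOpen U := ∀ x ∈ U, ∃ H, x ∈ W H ∧ W H ⊆ U
  isOpen_univ := fun x _ => ⟨∅, by simp [W], subset_univ _⟩
  isOpen_inter := by
    classical
    intro U V hU hV x hx
    obtain ⟨H, h1, h2⟩ := hU x hx.1
    obtain ⟨H', h1', h2'⟩ := hV x hx.2
    exact ⟨H ∪ H', by rw [W_union]; exact ⟨h1, h1'⟩,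
      by rw [W_union]; exact inter_subset_inter h2 h2'⟩
  isOpen_sUnion := by
    rintro s hs x ⟨U, hU, hx⟩
    obtain ⟨H, h1, h2⟩ := hs U hU x hx
    exact ⟨H, h1, h2.trans (subset_sUnion_of_mem hU)⟩

attribute [local instance] top

lemma isOpen_W (H : Finset Lb) : IsOpen (W H) := fun _ hx => ⟨H, hx, subset_rfl⟩

lemma t2 : T2Space Tr := by
  have key : ∀ (x y : Tr) (l : List ℕ), has x l → ¬ has y l →
      ∃ u v : Set Tr, IsOpen u ∧ IsOpen v ∧ x ∈ u ∧ y ∈ v ∧ Disjoint u v := by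
    intro x y l hx hy
    refine ⟨W {.inr (.inr (l, false))}, W {.inr (.inr (l, true))}, isOpen_W _, isOpen_W _, ?_, ?_,
      Set.disjoint_left.2 fun z h1 h2 => ?_⟩
    · simp [mem_W_single, lab_mem_T, hx]
    · simp [mem_W_single, lab_mem_T, hy]
    · simp [mem_W_single, lab_mem_T] at h1 h2
      exact h2 h1
  refine ⟨fun x y hxy => ?_⟩
  obtain ⟨l, hl⟩ := not_forall.1 fun h => hxy (has_inj x y h)
  by_cases hx : has x l
  · exact key x y l hx fun hy => hl ⟨fun _ => hy, fun _ => hx⟩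
  · obtain ⟨u, v, h1, h2, h3, h4, h5⟩ :=
      key y x l (by_contra fun hy => hl ⟨fun h => absurd h hx, fun h => absurd h hy⟩) hx
    exact ⟨v, u, h2, h1, h4, h3, h5.symm⟩

lemma hl : HereditarilyLindelofSpace Tr := by
  classical
  refine ⟨fun t _ => isLindelof_of_countable_subcover fun {ι} U hU ht => ?_⟩
  have h1 : ∀ y ∈ t, ∃ i, ∃ H, y ∈ W H ∧ W H ⊆ U i := by
    intro y hy
    obtain ⟨i, hi⟩ := mem_iUnion.mp (ht hy)
    exact ⟨i, hU i y hi⟩
  rcases t.eq_empty_or_nonempty with rfl | ⟨y0, hy0⟩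
  · exact ⟨∅, countable_empty, empty_subset _⟩
  have : Nonempty ι := ⟨(h1 y0 hy0).choose⟩
  choose! i H hH1 hH2 using h1
  have h2 := fun p : ℕ × Finset (List ℕ × Bool) => reduce T T_countable
    (fun x => Sum.inr (Sum.inl x)) (fun _ => pt_mem_T.2 rfl) (fun _ _ => pt_mem_T.1) p.1
    {F | F.card ≤ p.1 ∧ ∃ y ∈ t, (H y).toLeft = F ∧ (H y).toRight.toRight = p.2}
    (fun F hF => hF.1)
  choose 𝓕 h3 h4 h5 using h2
  have h6 : ∀ p, ∀ F ∈ 𝓕 p, ∃ y ∈ t, (H y).toLeft = F ∧ (H y).toRight.toRight = p.2 :=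
    fun p F hF => (h3 p hF).2
  have : Nonempty Tr := ⟨.leaf⟩
  choose! y hy1 hy2 hy3 using h6
  refine ⟨i '' ⋃ p, ⋃ F ∈ 𝓕 p, insert (y p F) ((H (y p F)).toRight.toLeft : Set Tr),
    (countable_iUnion fun p => (h4 p).biUnion fun F _ =>
      (Finset.countable_toSet _).insert _).image _, fun z hz => ?_⟩
  obtain ⟨F, hF, hFz⟩ := h5 ((H z).toLeft.card, (H z).toRight.toRight) (S z) (disc_S z)
    ⟨(H z).toLeft, ⟨le_rfl, z, hz, rfl, rfl⟩, Set.disjoint_left.mpr fun a ha ha' =>
      Set.disjoint_left.mp (hH1 z hz) (Finset.mem_toLeft.mp ha) (inl_mem_T.mpr ha')⟩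
  set p := ((H z).toLeft.card, (H z).toRight.toRight) with hp
  by_cases hzr : z ∈ (H (y p F)).toRight.toLeft
  · exact mem_biUnion (mem_image_of_mem i (mem_iUnion.2 ⟨p, mem_biUnion hF (Or.inr hzr)⟩))
      (hH2 z hz (hH1 z hz))
  · refine mem_biUnion (mem_image_of_mem i (mem_iUnion.2 ⟨p, mem_biUnion hF (Or.inl rfl)⟩))
      (hH2 _ (hy1 p F hF) (Set.disjoint_left.mpr ?_))
    rintro (a | a | a) ha ha'
    · refine Set.disjoint_left.mp hFz ?_ (inl_mem_T.mp ha')
      rw [← hy2 p F hF]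
      exact Finset.mem_toLeft.mpr ha
    · obtain rfl := pt_mem_T.1 ha'
      exact hzr (Finset.mem_toLeft.mpr (Finset.mem_toRight.mpr ha))
    · have h7 : a ∈ (H z).toRight.toRight := by
        have : (H (y p F)).toRight.toRight = (H z).toRight.toRight := hy3 p F hF
        exact this ▸ Finset.mem_toRight.mpr (Finset.mem_toRight.mpr ha)
      exact Set.disjoint_left.mp (hH1 z hz) (Finset.mem_toRight.mp (Finset.mem_toRight.mp h7)) ha'

lemma not_dd : ¬ (∀ U : Tr → Set Tr, (∀ x, IsOpen (U x) ∧ x ∈ U x) →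
    ∃ D : Set Tr, DiscreteTopology D ∧ (⋃ x ∈ D, U x) = Set.univ) := by
  intro h
  obtain ⟨D, hD, hcov⟩ := h (fun x => W {Sum.inl x}) fun x =>
    ⟨isOpen_W _, mem_W_single.2 fun e => not_mem_S x (inl_mem_T.1 e)⟩
  have hc : D.Countable := (hl.1 D (subset_univ _)).countable hD
  have hne : D.Nonempty := by
    have : Tr.leaf ∈ ⋃ x ∈ D, W {Sum.inl x} := hcov ▸ mem_univ _
    obtain ⟨x, hx, -⟩ := mem_iUnion₂.mp this
    exact ⟨x, hx⟩
  obtain ⟨f, rfl⟩ := hc.exists_eq_range hne
  have hdisc : Disc T (range f) := by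
    intro d hd
    have ho : IsOpen ({⟨d, hd⟩} : Set (range f)) := isOpen_discrete _
    obtain ⟨V, hV, hV'⟩ := isOpen_induced_iff.mp ho
    have hdV : d ∈ V := by
      have : (⟨d, hd⟩ : range f) ∈ Subtype.val ⁻¹' V := by rw [hV']; rfl
      exact this
    obtain ⟨H, h1, h2⟩ := hV d hdV
    refine ⟨H, h1, fun e he heH => ?_⟩
    have : (⟨e, he⟩ : range f) ∈ Subtype.val ⁻¹' V := h2 heH
    rw [hV'] at this
    exact congrArg Subtype.val this
  have : Tr.node f ∈ ⋃ x ∈ range f, W {Sum.inl x} := hcov ▸ mem_univ _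
  obtain ⟨x, hx, hx'⟩ := mem_iUnion₂.mp this
  exact mem_W_single.1 hx' (inl_mem_T.2 (S_node hdisc hx))

end Pool.Agent.MP_7d36bd_gt.H73
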